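import Mathlib
import Pool.Agent.H990R2.CT

open Finset Filter Topology

namespace Pool.Agent.Results.MP_bada7b_pr.MLSNotBounded

noncomputable section

/-- `P` is an irreducible transition matrix on the finite set `Ω`, reversible with respect to the
positive probability distribution `p` (which is then its stationary distribution). -/
structure IsRevChain {Ω : Type} [Fintype Ω] (P : Matrix Ω Ω ℝ) (p : Ω → ℝ) : Prop where
  nonneg : ∀ x y, 0 ≤ P x y
  row : ∀ x, ∑ y, P x y = 1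
  irred : ∀ x y, Relation.ReflTransGen (fun a b => 0 < P a b) x y
  pos : ∀ x, 0 < p x
  sum : ∑ x, p x = 1
  rev : ∀ x y, p x * P x y = p y * P y x

/-- Dirichlet form `𝓔(f,g) = ⟨(I - P) f, g⟩_p`. -/
def dir {Ω : Type} [Fintype Ω] (P : Matrix Ω Ω ℝ) (p : Ω → ℝ) (f g : Ω → ℝ) : ℝ :=
  ∑ x, p x * (f x - ∑ y, P x y * f y) * g x

/-- Entropy `Ent_p(F) = E[F log F] - E[F] log E[F]`. -/
def ent {Ω : Type} [Fintype Ω] (p : Ω → ℝ) (F : Ω → ℝ) : ℝ :=
  ∑ x, p x * (F x * Real.log (F x)) - (∑ x, p x * F x) * Real.log (∑ x, p x * F x)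

/-- Modified log-Sobolev constant: infimum of `𝓔(e^f,f) / Ent_p(e^f)` over non-constant `f`. -/
def cMLS {Ω : Type} [Fintype Ω] (P : Matrix Ω Ω ℝ) (p : Ω → ℝ) : ℝ :=
  sInf {r : ℝ | ∃ f : Ω → ℝ, (¬ ∃ c, ∀ x, f x = c) ∧
    r = dir P p (fun x => Real.exp (f x)) f / ent p (fun x => Real.exp (f x))}

/-- Restriction of `P` to `A × A`. -/
def restr {Ω : Type} [DecidableEq Ω] (P : Matrix Ω Ω ℝ) (A : Finset Ω) : Matrix Ω Ω ℝ :=
  fun x y => if x ∈ A ∧ y ∈ A then P x y else 0

/-- `Pr_x[T_{A^c} > t]` for the continuous-time chain `e^{-t(I-P)}`: mass in `A` at time `t` of the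
chain killed when it leaves `A`, i.e. `∑_{y ∈ A} e^{-t(I - P_A)}(x,y)`. -/
def surv {Ω : Type} [Fintype Ω] [DecidableEq Ω] (P : Matrix Ω Ω ℝ) (A : Finset Ω) (t : ℝ)
    (x : Ω) : ℝ :=
  ∑ y ∈ A, NormedSpace.exp (t • (restr P A - 1)) x y

/-- `A` is connected: from each `a ∈ A` every `b ∈ A` can be reached inside `A`. -/
def IsConn {Ω : Type} (P : Matrix Ω Ω ℝ) (A : Finset Ω) : Prop :=
  ∀ a ∈ A, ∀ b ∈ A, Relation.ReflTransGen (fun u v => u ∈ A ∧ v ∈ A ∧ 0 < P u v) a b

/-- `ρ_{ent,x}` with constant `C_ent = K`. -/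
def rhoAt {Ω : Type} [Fintype Ω] [DecidableEq Ω] (P : Matrix Ω Ω ℝ) (p : Ω → ℝ) (K : ℝ)
    (x : Ω) : ℝ :=
  sInf {t : ℝ | 0 ≤ t ∧ ∀ A : Finset Ω, A.Nonempty → IsConn P A → ∑ y ∈ A, p y ≤ 1 / 2 →
    surv P A t x ≤ min (K / |Real.log (∑ y ∈ A, p y)|) (99 / 100)}

/-- `ρ_ent = max_x ρ_{ent,x}`. -/
def rhoEnt {Ω : Type} [Fintype Ω] [DecidableEq Ω] (P : Matrix Ω Ω ℝ) (p : Ω → ℝ) (K : ℝ) : ℝ :=
  ⨆ x, rhoAt P p K x

/-- the stationary law of the example -/
def pi3 (ε : ℝ) : Fin 3 → ℝ := ![ε, ε, 1 - 2 * ε]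

/-- the three-state birth and death chain of the example -/
def P3 (ε : ℝ) : Matrix (Fin 3) (Fin 3) ℝ :=
  !![1 / 2, 1 / 2, 0; 1 / 2, 0, 1 / 2; 0, ε / (2 * (1 - 2 * ε)), 1 - ε / (2 * (1 - 2 * ε))]

theorem isRev {ε : ℝ} (h0 : 0 < ε) (h1 : ε < 1 / 4) : IsRevChain (P3 ε) (pi3 ε) := by
  have h2 : 0 < 1 - 2 * ε := by linarith
  have h3 : 0 < ε / (2 * (1 - 2 * ε)) := by positivity
  have h4 : ε / (2 * (1 - 2 * ε)) ≤ 1 := by
    rw [div_le_one (by positivity)]; linarith
  have e01 : 0 < P3 ε 0 1 := by simp [P3]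
  have e10 : 0 < P3 ε 1 0 := by simp [P3]
  have e12 : 0 < P3 ε 1 2 := by simp [P3]
  have e21 : 0 < P3 ε 2 1 := by simp [P3]; positivity
  refine ⟨?_, ?_, ?_, ?_, ?_, ?_⟩
  · intro x y
    fin_cases x <;> fin_cases y <;> simp [P3] <;> first | positivity | linarith
  · intro x
    fin_cases x <;> simp [P3, Fin.sum_univ_three] <;> norm_num
  · have key : ∀ x : Fin 3, Relation.ReflTransGen (fun a b => 0 < P3 ε a b) x 1 := by
      intro x
      fin_cases x
      · exact Relation.ReflTransGen.single e01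
      · exact Relation.ReflTransGen.refl
      · exact Relation.ReflTransGen.single e21
    have key2 : ∀ x : Fin 3, Relation.ReflTransGen (fun a b => 0 < P3 ε a b) 1 x := by
      intro x
      fin_cases x
      · exact Relation.ReflTransGen.single e10
      · exact Relation.ReflTransGen.refl
      · exact Relation.ReflTransGen.single e12
    exact fun x y => (key x).trans (key2 y)
  · intro x
    fin_cases x <;> simp [pi3] <;> linarith
  · simp [pi3, Fin.sum_univ_three]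
    ring
  · intro x y
    have h5 : (1 - 2 * ε) * (ε / (2 * (1 - 2 * ε))) = ε * (1 / 2) := by
      have h6 := h2.ne'
      rw [mul_div_assoc', div_eq_iff (by positivity)]
      ring
    fin_cases x <;> fin_cases y <;> simp [pi3, P3] <;> linarith

theorem dir_eq {ε : ℝ} (h1 : ε < 1 / 4) (F f : Fin 3 → ℝ) :
    dir (P3 ε) (pi3 ε) F f =
      ε / 2 * ((F 0 - F 1) * (f 0 - f 1)) + ε / 2 * ((F 1 - F 2) * (f 1 - f 2)) := by
  have h2 : 0 < 1 - 2 * ε := by linarith
  have h5 : (1 - 2 * ε) * (ε / (2 * (1 - 2 * ε))) = ε / 2 := by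
    rw [mul_div_assoc', div_eq_iff (by positivity)]
    ring
  simp only [dir, P3, pi3, Fin.sum_univ_three]
  simp
  generalize ε / (2 * (1 - 2 * ε)) = q at h5 ⊢
  linear_combination (F 1 - F 2) * (-f 2) * h5

/-- lower bound on the entropy production of one edge -/
theorem edge_ge (a b : ℝ) :
    2 * (Real.exp (a / 2) - Real.exp (b / 2)) ^ 2 ≤ (Real.exp a - Real.exp b) * (a - b) := by
  wlog hab : b ≤ a generalizing a b
  · have := this b a (by linarith)
    nlinarith
  set u := Real.exp (a / 2) with hu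
  set v := Real.exp (b / 2) with hv
  have hu0 : 0 < u := Real.exp_pos _
  have hv0 : 0 < v := Real.exp_pos _
  have ea : Real.exp a = u ^ 2 := by rw [hu, ← Real.exp_nat_mul]; congr 1; push_cast; ring
  have eb : Real.exp b = v ^ 2 := by rw [hv, ← Real.exp_nat_mul]; congr 1; push_cast; ring
  have huv : v ≤ u := Real.exp_le_exp.mpr (by linarith)
  have h3 : u - v ≤ u * ((a - b) / 2) := by
    have h4 := Real.add_one_le_exp (-((a - b) / 2))
    have h5 : v = u * Real.exp (-((a - b) / 2)) := by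
      rw [hu, hv, ← Real.exp_add]; congr 1; ring
    have h6 := mul_le_mul_of_nonneg_left h4 hu0.le
    rw [← h5] at h6
    linarith
  rw [ea, eb]
  have h7 : 0 ≤ (u - v) := by linarith
  have h8 : (u ^ 2 - v ^ 2) * (a - b) = (u - v) * ((u + v) * (a - b)) := by ring
  rw [h8]
  have h9 : 2 * (u - v) ≤ (u + v) * (a - b) := by
    have : 0 ≤ v * (a - b) := mul_nonneg hv0.le (by linarith)
    linarith
  nlinarith [mul_le_mul_of_nonneg_left h9 h7]

/-- upper bound for the entropy by the variance over the mean -/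
theorem ent_le {ε : ℝ} (h0 : 0 < ε) (h1 : ε < 1 / 4) (F : Fin 3 → ℝ) (hF : ∀ i, 0 < F i) :
    ent (pi3 ε) F * (∑ x, pi3 ε x * F x) ≤
      ε * ε * (F 0 - F 1) ^ 2 + ε * (1 - 2 * ε) * (F 1 - F 2) ^ 2 +
        ε * (1 - 2 * ε) * (F 0 - F 2) ^ 2 := by
  have hp : ∀ i, 0 < pi3 ε i := (isRev h0 h1).pos
  set m := ∑ x, pi3 ε x * F x with hm
  have hm0 : 0 < m := Finset.sum_pos (fun i _ => mul_pos (hp i) (hF i)) ⟨0, Finset.mem_univ _⟩
  have h3 : ent (pi3 ε) F ≤ ∑ x, pi3 ε x * (F x * (F x / m - 1)) := by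
    have e : ent (pi3 ε) F = ∑ x, pi3 ε x * (F x * Real.log (F x / m)) := by
      rw [ent, ← hm]
      have : ∀ x, pi3 ε x * (F x * Real.log (F x / m)) =
          pi3 ε x * (F x * Real.log (F x)) - pi3 ε x * F x * Real.log m := by
        intro x
        rw [Real.log_div (hF x).ne' hm0.ne']
        ring
      simp only [this]
      rw [Finset.sum_sub_distrib, ← Finset.sum_mul]
    rw [e]
    refine Finset.sum_le_sum fun x _ => ?_
    apply mul_le_mul_of_nonneg_left _ (hp x).le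
    apply mul_le_mul_of_nonneg_left _ (hF x).le
    exact Real.log_le_sub_one_of_pos (div_pos (hF x) hm0)
  have h4 := mul_le_mul_of_nonneg_right h3 hm0.le
  refine h4.trans (le_of_eq ?_)
  rw [Finset.sum_mul]
  have e2 : ∀ x, pi3 ε x * (F x * (F x / m - 1)) * m = pi3 ε x * (F x ^ 2 - F x * m) := by
    intro x; field_simp
  simp only [e2]
  rw [hm]
  simp only [pi3, Fin.sum_univ_three]
  simp
  ring

theorem ent_pos {ε : ℝ} (h0 : 0 < ε) (h1 : ε < 1 / 4) (f : Fin 3 → ℝ)
    (hf : ¬ ∃ c, ∀ x, f x = c) : 0 < ent (pi3 ε) (fun x => Real.exp (f x)) := by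
  have hp : ∀ i, 0 < pi3 ε i := (isRev h0 h1).pos
  have hp1 : ∑ x, pi3 ε x = 1 := (isRev h0 h1).sum
  set m := ∑ x, pi3 ε x * Real.exp (f x) with hm
  have hm0 : 0 < m := Finset.sum_pos (fun i _ => mul_pos (hp i) (Real.exp_pos _))
    ⟨0, Finset.mem_univ _⟩
  have e : ent (pi3 ε) (fun x => Real.exp (f x)) =
      ∑ x, pi3 ε x * (Real.exp (f x) * (m / Real.exp (f x) - 1 - Real.log (m / Real.exp (f x)))) := by
    rw [ent, ← hm]
    have : ∀ x, pi3 ε x * (Real.exp (f x) * (m / Real.exp (f x) - 1 -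
        Real.log (m / Real.exp (f x)))) =
        pi3 ε x * (Real.exp (f x) * Real.log (Real.exp (f x))) +
          (pi3 ε x * m - pi3 ε x * Real.exp (f x)) - pi3 ε x * Real.exp (f x) * Real.log m := by
      intro x
      rw [Real.log_div hm0.ne' (Real.exp_pos _).ne']
      have := (Real.exp_pos (f x)).ne'
      field_simp
      ring
    simp only [this]
    rw [Finset.sum_sub_distrib, Finset.sum_add_distrib, Finset.sum_sub_distrib, ← Finset.sum_mul,
      ← Finset.sum_mul, hp1, ← hm]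
    ring
  rw [e]
  have hterm : ∀ x, 0 ≤ pi3 ε x * (Real.exp (f x) * (m / Real.exp (f x) - 1 -
      Real.log (m / Real.exp (f x)))) := by
    intro x
    have h3 := Real.log_le_sub_one_of_pos (div_pos hm0 (Real.exp_pos (f x)))
    exact mul_nonneg (hp x).le (mul_nonneg (Real.exp_pos _).le (by linarith))
  obtain ⟨x, hx⟩ : ∃ x, m / Real.exp (f x) ≠ 1 := by
    by_contra hcon
    push Not at hcon
    apply hf
    refine ⟨Real.log m, fun x => ?_⟩
    have h3 := hcon x
    rw [div_eq_one_iff_eq (Real.exp_pos _).ne'] at h3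
    rw [h3, Real.log_exp]
  refine Finset.sum_pos' (fun x _ => hterm x) ⟨x, Finset.mem_univ _, ?_⟩
  have h3 := Real.log_lt_sub_one_of_pos (div_pos hm0 (Real.exp_pos (f x))) hx
  exact mul_pos (hp x) (mul_pos (Real.exp_pos _) (by linarith))

theorem ratio_ge {ε : ℝ} (h0 : 0 < ε) (h1 : ε < 1 / 4) (f : Fin 3 → ℝ)
    (hf : ¬ ∃ c, ∀ x, f x = c) :
    ε / 6 ≤ dir (P3 ε) (pi3 ε) (fun x => Real.exp (f x)) f /
      ent (pi3 ε) (fun x => Real.exp (f x)) := by
  have hpos := ent_pos h0 h1 f hf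
  rw [le_div_iff₀ hpos, dir_eq h1]
  set g : Fin 3 → ℝ := fun i => Real.exp (f i / 2) with hg
  have hg0 : ∀ i, 0 < g i := fun i => Real.exp_pos _
  have hF : ∀ i, Real.exp (f i) = g i ^ 2 := by
    intro i
    rw [hg]
    simp only
    rw [← Real.exp_nat_mul]; congr 1; push_cast; ring
  have a1 := edge_ge (f 0) (f 1)
  have a2 := edge_ge (f 1) (f 2)
  have hent := ent_le h0 h1 (fun x => Real.exp (f x)) (fun i => Real.exp_pos _)
  set m := ∑ x, pi3 ε x * Real.exp (f x) with hm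
  have hm' : m = ε * g 0 ^ 2 + ε * g 1 ^ 2 + (1 - 2 * ε) * g 2 ^ 2 := by
    rw [hm]
    simp only [pi3, Fin.sum_univ_three, hF]
    simp
  have hm0 : 0 < m := by
    rw [hm']
    have := hg0 0; have := hg0 1; have := hg0 2
    have : 0 < 1 - 2 * ε := by linarith
    positivity
  have h2 : 0 < 1 - 2 * ε := by linarith
  -- bound each variance term
  have b : ∀ (i j : Fin 3) (p q : ℝ), 0 ≤ p → 0 ≤ q → p + q ≤ 1 → p * g i ^ 2 ≤ m →
      q * g j ^ 2 ≤ m → p * q * (Real.exp (f i) - Real.exp (f j)) ^ 2 ≤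
        2 * (g i - g j) ^ 2 * m := by
    intro i j p q hp hq hpq hi hj
    rw [hF, hF]
    have e1 : (g i ^ 2 - g j ^ 2) ^ 2 = (g i - g j) ^ 2 * (g i + g j) ^ 2 := by ring
    have e2 : (g i + g j) ^ 2 ≤ 2 * (g i ^ 2 + g j ^ 2) := by nlinarith [sq_nonneg (g i - g j)]
    have e3 : p * q * (g i ^ 2 + g j ^ 2) ≤ m := by
      have c1 : q * (p * g i ^ 2) ≤ q * m := mul_le_mul_of_nonneg_left hi hq
      have c2 : p * (q * g j ^ 2) ≤ p * m := mul_le_mul_of_nonneg_left hj hp
      nlinarith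
    rw [e1]
    calc p * q * ((g i - g j) ^ 2 * (g i + g j) ^ 2)
        = (g i - g j) ^ 2 * (p * q * (g i + g j) ^ 2) := by ring
      _ ≤ (g i - g j) ^ 2 * (p * q * (2 * (g i ^ 2 + g j ^ 2))) := by gcongr
      _ = (g i - g j) ^ 2 * (2 * (p * q * (g i ^ 2 + g j ^ 2))) := by ring
      _ ≤ (g i - g j) ^ 2 * (2 * m) := by gcongr
      _ = _ := by ring
  have m0 : ε * g 0 ^ 2 ≤ m := by rw [hm']; nlinarith [sq_nonneg (g 1), sq_nonneg (g 2)]
  have m1 : ε * g 1 ^ 2 ≤ m := by rw [hm']; nlinarith [sq_nonneg (g 0), sq_nonneg (g 2)]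
  have m2 : (1 - 2 * ε) * g 2 ^ 2 ≤ m := by
    rw [hm']; nlinarith [sq_nonneg (g 1), sq_nonneg (g 0)]
  have b01 := b 0 1 ε ε h0.le h0.le (by linarith) m0 m1
  have b12 := b 1 2 ε (1 - 2 * ε) h0.le h2.le (by linarith) m1 m2
  have b02 := b 0 2 ε (1 - 2 * ε) h0.le h2.le (by linarith) m0 m2
  have hE : ent (pi3 ε) (fun x => Real.exp (f x)) ≤
      2 * (g 0 - g 1) ^ 2 + 2 * (g 1 - g 2) ^ 2 + 2 * (g 0 - g 2) ^ 2 := by
    apply le_of_mul_le_mul_right _ hm0
    refine hent.trans ?_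
    linarith
  have hE2 : (g 0 - g 2) ^ 2 ≤ 2 * (g 0 - g 1) ^ 2 + 2 * (g 1 - g 2) ^ 2 := by
    nlinarith [sq_nonneg ((g 0 - g 1) - (g 1 - g 2))]
  have hE3 : ent (pi3 ε) (fun x => Real.exp (f x)) ≤
      6 * (g 0 - g 1) ^ 2 + 6 * (g 1 - g 2) ^ 2 := by linarith
  have hfin := mul_le_mul_of_nonneg_left hE3 h0.le
  have a1' := mul_le_mul_of_nonneg_left a1 h0.le
  have a2' := mul_le_mul_of_nonneg_left a2 h0.le
  simp only [hg] at hfin
  linarith

/-- the set in the definition of `cMLS` is bounded below by `ε / 6` and nonempty -/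
theorem cMLS_pos {ε : ℝ} (h0 : 0 < ε) (h1 : ε < 1 / 4) :
    0 < cMLS (P3 ε) (pi3 ε) ∧
    ∀ f : Fin 3 → ℝ, (¬ ∃ c, ∀ x, f x = c) → cMLS (P3 ε) (pi3 ε) ≤
      dir (P3 ε) (pi3 ε) (fun x => Real.exp (f x)) f /
        ent (pi3 ε) (fun x => Real.exp (f x)) := by
  have hne : ¬ ∃ c, ∀ x, (![0, 1, 2] : Fin 3 → ℝ) x = c := by
    rintro ⟨c, hc⟩
    have a := hc 0
    have b := hc 1
    simp at a b
    linarith
  constructor
  · refine lt_of_lt_of_le (show 0 < ε / 6 by positivity) ?_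
    apply le_csInf
    · exact ⟨_, _, hne, rfl⟩
    · rintro r ⟨f, hf, rfl⟩
      exact ratio_ge h0 h1 f hf
  · intro f hf
    apply csInf_le
    · refine ⟨ε / 6, ?_⟩
      rintro r ⟨f, hf, rfl⟩
      exact ratio_ge h0 h1 f hf
    · exact ⟨f, hf, rfl⟩

/-- the Lyapunov function for the killed chain -/
def lyap : Fin 3 → ℝ := ![1, 3 / 4, 0]

theorem restr_pow_le {ε : ℝ} (A : Finset (Fin 3)) (hA : (2 : Fin 3) ∉ A) (k : ℕ) (x : Fin 3) :
    0 ≤ ((restr (P3 ε) A) ^ k).mulVec (fun y => if y ∈ A then 1 else 0) x ∧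
    ((restr (P3 ε) A) ^ k).mulVec (fun y => if y ∈ A then 1 else 0) x ≤
      4 / 3 * (7 / 8) ^ k * lyap x := by
  induction k generalizing x with
  | zero =>
    rw [pow_zero, Matrix.one_mulVec]
    fin_cases x
    · simp only [lyap]; split_ifs <;> norm_num
    · simp only [lyap]; split_ifs <;> norm_num
    · simp only [lyap]
      have : ((⟨2, by omega⟩ : Fin 3) ∈ A) = False := eq_false hA
      simp [hA]
  | succ k ih =>
    rw [pow_succ', ← Matrix.mulVec_mulVec]
    set v := ((restr (P3 ε) A) ^ k).mulVec (fun y => if y ∈ A then 1 else 0) with hv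
    have h0 := ih 0
    have h1 := ih 1
    have h2 := ih 2
    have e : ∀ x, (restr (P3 ε) A).mulVec v x = restr (P3 ε) A x 0 * v 0 +
        restr (P3 ε) A x 1 * v 1 + restr (P3 ε) A x 2 * v 2 := by
      intro x
      simp only [Matrix.mulVec, dotProduct, Fin.sum_univ_three]
    have r2 : ∀ x, restr (P3 ε) A x 2 = 0 := by
      intro x; simp [restr, hA]
    have r2' : ∀ y, restr (P3 ε) A 2 y = 0 := by
      intro y; simp [restr, hA]
    have r00 : 0 ≤ restr (P3 ε) A 0 0 ∧ restr (P3 ε) A 0 0 ≤ 1 / 2 := by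
      simp only [restr]; split_ifs <;> simp [P3]
    have r01 : 0 ≤ restr (P3 ε) A 0 1 ∧ restr (P3 ε) A 0 1 ≤ 1 / 2 := by
      simp only [restr]; split_ifs <;> simp [P3]
    have r10 : 0 ≤ restr (P3 ε) A 1 0 ∧ restr (P3 ε) A 1 0 ≤ 1 / 2 := by
      simp only [restr]; split_ifs <;> simp [P3]
    have r11 : restr (P3 ε) A 1 1 = 0 := by
      simp only [restr]; split_ifs <;> simp [P3]
    have hl0 : lyap 0 = 1 := by simp [lyap]
    have hl1 : lyap 1 = 3 / 4 := by simp [lyap]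
    have hl2 : lyap 2 = 0 := by simp [lyap]
    rw [hl0] at h0
    rw [hl1] at h1
    have hpow : (0 : ℝ) < (7 / 8) ^ k := by positivity
    rw [e, r2, zero_mul, add_zero]
    have c00 := mul_le_mul r00.2 h0.2 h0.1 (by norm_num)
    have c01 := mul_le_mul r01.2 h1.2 h1.1 (by norm_num)
    have c10 := mul_le_mul r10.2 h0.2 h0.1 (by norm_num)
    have n00 := mul_nonneg r00.1 h0.1
    have n01 := mul_nonneg r01.1 h1.1
    have n10 := mul_nonneg r10.1 h0.1
    fin_cases x
    · refine ⟨?_, ?_⟩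
      · exact add_nonneg n00 n01
      · change restr (P3 ε) A 0 0 * v 0 + restr (P3 ε) A 0 1 * v 1 ≤ _ * lyap 0
        rw [hl0, pow_succ]
        linarith
    · refine ⟨?_, ?_⟩
      · change 0 ≤ restr (P3 ε) A 1 0 * v 0 + restr (P3 ε) A 1 1 * v 1
        rw [r11, zero_mul, add_zero]
        exact n10
      · change restr (P3 ε) A 1 0 * v 0 + restr (P3 ε) A 1 1 * v 1 ≤ _ * lyap 1
        rw [hl1, pow_succ, r11, zero_mul, add_zero]
        linarith
    · refine ⟨?_, ?_⟩
      · change 0 ≤ restr (P3 ε) A 2 0 * v 0 + restr (P3 ε) A 2 1 * v 1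
        rw [r2', r2']; simp
      · change restr (P3 ε) A 2 0 * v 0 + restr (P3 ε) A 2 1 * v 1 ≤ _ * lyap 2
        rw [r2', r2', hl2]; simp

theorem surv_le {ε : ℝ} (A : Finset (Fin 3)) (hA : (2 : Fin 3) ∉ A) {t : ℝ} (ht : 0 ≤ t)
    (x : Fin 3) : surv (P3 ε) A t x ≤ 4 / 3 * Real.exp (-(t / 8)) := by
  have h1 := H990R2.CT.H_mulVec_hasSum (restr (P3 ε) A) t (fun y => if y ∈ A then 1 else 0) x
  have h2 := (H990R2.CT.poisson_hasSum t (7 / 8)).mul_left (4 / 3)
  have e : surv (P3 ε) A t x =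
      (H990R2.CT.H (restr (P3 ε) A) t).mulVec (fun y => if y ∈ A then 1 else 0) x := by
    simp only [surv, Matrix.mulVec, dotProduct, H990R2.CT.H, mul_ite, mul_one, mul_zero]
    rw [← Finset.sum_filter]
    simp
  rw [e]
  have e2 : (7 / 8 - 1 : ℝ) * t = -(t / 8) := by ring
  rw [e2] at h2
  refine hasSum_le (fun k => ?_) h1 h2
  have h3 := (restr_pow_le (ε := ε) A hA k x).2
  have h4 : lyap x ≤ 1 := by fin_cases x <;> simp [lyap]; norm_num
  have h5 : (0 : ℝ) ≤ Real.exp (-t) * (t ^ k / k.factorial) := by positivity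
  have h6 : 4 / 3 * (7 / 8 : ℝ) ^ k * lyap x ≤ 4 / 3 * (7 / 8) ^ k := by
    have : (0 : ℝ) ≤ 4 / 3 * (7 / 8) ^ k := by positivity
    nlinarith
  calc _ ≤ Real.exp (-t) * (t ^ k / k.factorial) * (4 / 3 * (7 / 8) ^ k) :=
        mul_le_mul_of_nonneg_left (h3.trans h6) h5
    _ = _ := by ring

/-- Upper bound for `ρ_ent`. -/
theorem rho_le {L K : ℝ} (hK : 0 < K) (hL : 2 ≤ L) :
    rhoEnt (P3 (Real.exp (-L))) (pi3 (Real.exp (-L))) K ≤ 8 * Real.log (2 * (1 + L / K)) := by
  set ε := Real.exp (-L) with hε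
  have hε0 : 0 < ε := Real.exp_pos _
  have hε1 : ε < 1 / 4 := by
    have h1 : ε ≤ Real.exp (-2) := Real.exp_le_exp.mpr (by linarith)
    have h2 : Real.exp (-2) < 1 / 4 := by
      rw [Real.exp_neg, inv_eq_one_div]
      have h3 : (4 : ℝ) < Real.exp 2 := by
        have h4 : Real.exp 2 = Real.exp 1 * Real.exp 1 := by rw [← Real.exp_add]; norm_num
        rw [h4]
        have := Real.exp_one_gt_d9
        nlinarith
      exact one_div_lt_one_div_of_lt (by norm_num) h3
    linarith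
  have hLK : 0 < L / K := div_pos (by linarith) hK
  set t := 8 * Real.log (2 * (1 + L / K)) with ht
  have ht0 : 0 ≤ t := mul_nonneg (by norm_num) (Real.log_nonneg (by linarith))
  apply ciSup_le
  intro x
  apply csInf_le
  · exact ⟨0, fun t ht => ht.1⟩
  refine ⟨ht0, fun A hne _ hA => ?_⟩
  have hp : ∀ i, 0 < pi3 ε i := (isRev hε0 hε1).pos
  have h2A : (2 : Fin 3) ∉ A := by
    intro hcon
    have h3 : pi3 ε 2 ≤ ∑ y ∈ A, pi3 ε y :=
      Finset.single_le_sum (fun i _ => (hp i).le) hcon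
    have h4 : pi3 ε 2 = 1 - 2 * ε := by simp [pi3]
    linarith
  have hs := surv_le (ε := ε) A h2A ht0 x
  have hexp : Real.exp (-(t / 8)) = 1 / (2 * (1 + L / K)) := by
    rw [ht, mul_div_cancel_left₀ _ (by norm_num : (8 : ℝ) ≠ 0), Real.exp_neg,
      Real.exp_log (by positivity), one_div]
  rw [hexp] at hs
  have h5 : 4 / 3 * (1 / (2 * (1 + L / K))) = (2 / 3) * (K / (K + L)) := by
    field_simp
    ring
  rw [h5] at hs
  -- mass of `A`
  obtain ⟨a, ha⟩ := hne
  have ha2 : a ≠ 2 := fun h => h2A (h ▸ ha)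
  have hmass1 : ε ≤ ∑ y ∈ A, pi3 ε y := by
    have h3 : pi3 ε a ≤ ∑ y ∈ A, pi3 ε y :=
      Finset.single_le_sum (fun i _ => (hp i).le) ha
    have h4 : pi3 ε a = ε := by
      fin_cases a
      · simp [pi3]
      · simp [pi3]
      · exact absurd rfl ha2
    linarith
  have hmass2 : ∑ y ∈ A, pi3 ε y ≤ 1 / 2 := hA
  set q := ∑ y ∈ A, pi3 ε y with hq
  have hq0 : 0 < q := lt_of_lt_of_le hε0 hmass1
  have hlogneg : Real.log q < 0 := Real.log_neg hq0 (by linarith)
  have hlog1 : |Real.log q| ≤ L := by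
    rw [abs_of_neg hlogneg]
    have h6 := Real.log_le_log hε0 hmass1
    rw [hε, Real.log_exp] at h6
    linarith
  have hlog0 : 0 < |Real.log q| := abs_pos.mpr hlogneg.ne
  rw [le_min_iff]
  constructor
  · have h7 : K / L ≤ K / |Real.log q| := div_le_div_of_nonneg_left hK.le hlog0 hlog1
    have h8 : (2 / 3) * (K / (K + L)) ≤ K / L := by
      have h9 : K / (K + L) ≤ K / L :=
        div_le_div_of_nonneg_left hK.le (by linarith) (by linarith)
      have h10 : 0 ≤ K / (K + L) := div_nonneg hK.le (by linarith)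
      linarith
    linarith
  · have h9 : K / (K + L) ≤ 1 := by rw [div_le_one (by linarith)]; linarith
    linarith

/-- Upper bound for `c_MLS`. -/
theorem cMLS_le {L : ℝ} (hL : 7 ≤ L) :
    cMLS (P3 (Real.exp (-L))) (pi3 (Real.exp (-L))) ≤ (1 + Real.log L) / (2 * (L - 6)) := by
  set ε := Real.exp (-L) with hε
  have hε0 : 0 < ε := Real.exp_pos _
  have hε1 : ε < 1 / 4 := by
    have h1 : ε ≤ Real.exp (-2) := Real.exp_le_exp.mpr (by linarith)
    have h2 : Real.exp (-2) < 1 / 4 := by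
      rw [Real.exp_neg, inv_eq_one_div]
      have h3 : (4 : ℝ) < Real.exp 2 := by
        have h4 : Real.exp 2 = Real.exp 1 * Real.exp 1 := by rw [← Real.exp_add]; norm_num
        rw [h4]
        have := Real.exp_one_gt_d9
        nlinarith
      exact one_div_lt_one_div_of_lt (by norm_num) h3
    linarith
  have hL0 : 0 < L := by linarith
  have hlog0 : 0 ≤ Real.log L := Real.log_nonneg (by linarith)
  have hlogL : Real.log L ≤ L - 1 := Real.log_le_sub_one_of_pos hL0
  set f : Fin 3 → ℝ := ![L, L - Real.log L, 0] with hf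
  have hfne : ¬ ∃ c, ∀ x, f x = c := by
    rintro ⟨c, hc⟩
    have a := hc 0
    have b := hc 2
    simp [hf] at a b
    linarith
  refine ((cMLS_pos hε0 hε1).2 f hfne).trans ?_
  have f0 : f 0 = L := by simp [hf]
  have f1 : f 1 = L - Real.log L := by simp [hf]
  have f2 : f 2 = 0 := by simp [hf]
  have E0 : ε * Real.exp (f 0) = 1 := by
    rw [f0, hε, ← Real.exp_add]; simp
  have E1 : ε * Real.exp (f 1) = 1 / L := by
    rw [f1, hε, ← Real.exp_add, show -L + (L - Real.log L) = -Real.log L by ring, Real.exp_neg,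
      Real.exp_log hL0, one_div]
  have E2 : Real.exp (f 2) = 1 := by rw [f2, Real.exp_zero]
  have hnum : dir (P3 ε) (pi3 ε) (fun x => Real.exp (f x)) f ≤ (1 + Real.log L) / 2 := by
    rw [dir_eq hε1]
    have e1 : ε / 2 * ((Real.exp (f 0) - Real.exp (f 1)) * (f 0 - f 1)) =
        (1 - 1 / L) * Real.log L / 2 := by
      rw [show f 0 - f 1 = Real.log L by rw [f0, f1]; ring]
      linear_combination (Real.log L / 2) * E0 - (Real.log L / 2) * E1
    have e2 : ε / 2 * ((Real.exp (f 1) - Real.exp (f 2)) * (f 1 - f 2)) =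
        (1 / L - ε) * (L - Real.log L) / 2 := by
      rw [show f 1 - f 2 = L - Real.log L by rw [f1, f2]; ring, E2]
      linear_combination ((L - Real.log L) / 2) * E1
    rw [e1, e2]
    have h3 : 0 < 1 / L := by positivity
    have h4 : 1 / L * L = 1 := by field_simp
    nlinarith [mul_nonneg h3.le hlog0, mul_nonneg hε0.le (show 0 ≤ L - Real.log L by linarith)]
  have hden : L - 6 ≤ ent (pi3 ε) (fun x => Real.exp (f x)) := by
    have hm : ∑ x, pi3 ε x * Real.exp (f x) = 1 + 1 / L + (1 - 2 * ε) := by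
      simp only [pi3, Fin.sum_univ_three]
      simp only [Matrix.cons_val_zero, Matrix.cons_val_one, Matrix.cons_val]
      rw [E0, E1, E2, mul_one]
    rw [ent, hm]
    have h1L : 0 < 1 / L := by positivity
    have h1L' : 1 / L ≤ 1 := by rw [div_le_one hL0]; linarith
    set m := 1 + 1 / L + (1 - 2 * ε) with hmd
    have hm1 : 1 ≤ m := by rw [hmd]; linarith
    have hm3 : m ≤ 3 := by rw [hmd]; linarith
    have hml : m * Real.log m ≤ 6 := by
      have h5 : Real.log m ≤ m - 1 := Real.log_le_sub_one_of_pos (by linarith)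
      have h6 : m * Real.log m ≤ m * (m - 1) := mul_le_mul_of_nonneg_left h5 (by linarith)
      nlinarith
    have hs : ∑ x, pi3 ε x * (Real.exp (f x) * Real.log (Real.exp (f x))) =
        L + 1 / L * (L - Real.log L) := by
      simp only [pi3, Fin.sum_univ_three, Real.log_exp]
      simp only [Matrix.cons_val_zero, Matrix.cons_val_one, Matrix.cons_val]
      rw [f2, mul_zero, mul_zero, add_zero, ← mul_assoc, ← mul_assoc, E0, E1, f0, f1]
      ring
    rw [hs]
    have h7 : 0 ≤ 1 / L * (L - Real.log L) := mul_nonneg h1L.le (by linarith)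
    linarith
  have hL6 : 0 < L - 6 := by linarith
  calc _ ≤ ((1 + Real.log L) / 2) / (L - 6) := by
        apply div_le_div₀ (by positivity) hnum hL6 hden
    _ = _ := by rw [div_div]

/-- For every value `K > 0` of the constant `C_ent` in the definition of `ρ_ent` and for every `C`
there is a finite irreducible reversible Markov chain (with three states) for which
`1 / c_MLS > C ρ_ent`. -/
theorem result :
    ∀ K : ℝ, 0 < K → ∀ C : ℝ, ∃ (P : Matrix (Fin 3) (Fin 3) ℝ) (p : Fin 3 → ℝ),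
      IsRevChain P p ∧ 0 < cMLS P p ∧ C * rhoEnt P p K < 1 / cMLS P p := by
  intro K hK C
  -- parameters
  set B : ℝ := Real.log (2 * (1 + 1 / K)) with hB
  have hB0 : 0 ≤ B := Real.log_nonneg (by
    have : 0 < 1 / K := by positivity
    linarith)
  set D : ℝ := 32 * |C| * (B + 4) with hD
  have hD0 : 0 ≤ D := by positivity
  set s : ℝ := D + 6 with hs
  have hs6 : 6 ≤ s := by linarith
  set L : ℝ := s ^ 4 with hL
  have hs2 : s ≤ s ^ 2 := by nlinarith
  have hL7 : 7 ≤ L := by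
    have : s ^ 4 = s ^ 2 * s ^ 2 := by ring
    rw [hL, this]
    nlinarith
  have hL0 : 0 < L := by linarith
  have hlogs : Real.log s ≤ s - 1 := Real.log_le_sub_one_of_pos (by linarith)
  have hlogs0 : 0 ≤ Real.log s := Real.log_nonneg (by linarith)
  have hlogL : Real.log L = 4 * Real.log s := by
    rw [hL, Real.log_pow]; push_cast; ring
  set ε := Real.exp (-L) with hε
  have hε0 : 0 < ε := Real.exp_pos _
  have hε1 : ε < 1 / 4 := by
    have h1 : ε ≤ Real.exp (-2) := Real.exp_le_exp.mpr (by linarith)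
    have h2 : Real.exp (-2) < 1 / 4 := by
      rw [Real.exp_neg, inv_eq_one_div]
      have h3 : (4 : ℝ) < Real.exp 2 := by
        have h4 : Real.exp 2 = Real.exp 1 * Real.exp 1 := by rw [← Real.exp_add]; norm_num
        rw [h4]
        have := Real.exp_one_gt_d9
        nlinarith
      exact one_div_lt_one_div_of_lt (by norm_num) h3
    linarith
  refine ⟨P3 ε, pi3 ε, isRev hε0 hε1, (cMLS_pos hε0 hε1).1, ?_⟩
  have hc := cMLS_le hL7
  have hc0 := (cMLS_pos hε0 hε1).1
  have hr := rho_le hK (show 2 ≤ L by linarith)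
  rw [← hε] at hc hr
  have hr0 : 0 ≤ rhoEnt (P3 ε) (pi3 ε) K := by
    apply Real.iSup_nonneg
    intro x
    apply Real.sInf_nonneg
    exact fun t ht => ht.1
  rw [lt_div_iff₀ hc0]
  -- bounds in terms of `s`
  have hlog2 : Real.log (2 * (1 + L / K)) ≤ (B + 4) * s := by
    have h1 : 2 * (1 + L / K) ≤ (2 * (1 + 1 / K)) * L := by
      have : 0 < 1 / K := by positivity
      have h2 : L / K = L * (1 / K) := by ring
      rw [h2]
      nlinarith
    have h3 : Real.log (2 * (1 + L / K)) ≤ Real.log ((2 * (1 + 1 / K)) * L) :=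
      Real.log_le_log (by positivity) h1
    rw [Real.log_mul (by positivity) hL0.ne', hlogL, ← hB] at h3
    nlinarith
  have hlog3 : 1 + Real.log L ≤ 4 * s := by rw [hlogL]; linarith
  have hkey : |C| * (8 * ((B + 4) * s)) * (4 * s) < 2 * (L - 6) := by
    have e1 : |C| * (8 * ((B + 4) * s)) * (4 * s) = D * s ^ 2 := by rw [hD]; ring
    have e2 : L = s ^ 2 * s ^ 2 := by rw [hL]; ring
    rw [e1, e2]
    have h3 : (D + 6) * s ^ 2 ≤ s ^ 2 * s ^ 2 := by
      apply mul_le_mul_of_nonneg_right _ (by positivity)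
      linarith
    have h4 : 0 ≤ D * s ^ 2 := by positivity
    nlinarith
  have hL6 : 0 < 2 * (L - 6) := by linarith
  calc C * rhoEnt (P3 ε) (pi3 ε) K * cMLS (P3 ε) (pi3 ε)
      ≤ |C| * rhoEnt (P3 ε) (pi3 ε) K * cMLS (P3 ε) (pi3 ε) := by
        gcongr
        exact le_abs_self C
    _ ≤ |C| * (8 * ((B + 4) * s)) * ((4 * s) / (2 * (L - 6))) := by
        gcongr
        · linarith
        · refine hc.trans ?_
          gcongr
    _ = (|C| * (8 * ((B + 4) * s)) * (4 * s)) / (2 * (L - 6)) := by ring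
    _ < 1 := by rw [div_lt_one hL6]; exact hkey

end

end Pool.Agent.Results.MP_bada7b_pr.MLSNotBounded
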